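import Pool.Agent.H18.EDB.Targets2
import Pool.Agent.H33.HX.CVD
import Pool.Agent.H63.HX.ELI
import Pool.Agent.H52.HX.POL

/-!
# (FBV) the fibres of a self-map over the points of a totally invariant closed subset

The number of the preimages in the cone is the degree `E` (`T_CVD`); at most `D` of them are
proportional, and the points are normalised afterwards.
-/

set_option autoImplicit false

open MvPolynomial
open Pool.Agent.H12.ZD (pmap)
open Pool.Agent.H18.HIT Pool.Agent.H18.HX Pool.Agent.H18.VZ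
open Pool.Agent.H2.ED
open Pool.Agent.H18.EDB

namespace Pool.Agent.H52.EDB

section basic

variable {ν : ℕ} {k : Type} [Field k]

theorem eval_smul_sum {L : ℕ} (u : Po L k) (t : k) (y : Fin L → k) :
    eval (fun i => t * y i) u =
      ∑ m ∈ Finset.range (u.totalDegree + 1), t ^ m * eval y (homogeneousComponent m u) := by
  conv_lhs => rw [← sum_homogeneousComponent u]
  rw [map_sum]
  refine Finset.sum_congr rfl fun m _ => ?_
  exact Pool.Agent.H52.HX.hom_eval (homogeneousComponent_isHomogeneous m u) t y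

/-- the zeros of a homogeneous ideal form a cone -/
theorem zer_smul {L : ℕ} {V : Ideal (Po L k)} (hV : Hmi V) {y : Fin L → k} (hy : Zer V y) (t : k) :
    Zer V (fun i => t * y i) := by
  intro q hq
  rw [eval_smul_sum]
  refine Finset.sum_eq_zero fun m _ => ?_
  rw [hy _ (hV q hq m), mul_zero]

theorem af_eq_smul (y : Fin (ν + 2) → k) : af y = fun i => (y 1)⁻¹ * y i := by
  funext i
  show y i / y 1 = _
  rw [div_eq_mul_inv, mul_comm]

theorem af_smul {t : k} (ht : t ≠ 0) (y : Fin (ν + 2) → k) : af (fun i => t * y i) = af y := by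
  funext i
  show t * y i / (t * y 1) = y i / y 1
  exact mul_div_mul_left _ _ ht

theorem pmap_smul {G : Tup (ν + 2) k} {D : ℕ} (hG : ∀ i, (G i).IsHomogeneous D) (t : k)
    (y : Fin (ν + 2) → k) : pmap G (fun i => t * y i) = fun i => t ^ D * pmap G y i := by
  funext i
  exact Pool.Agent.H52.HX.hom_eval (hG i) t y

end basic

theorem pf_FBV : T_FBV := by
  intro ν D E e k _ _ _ P θ Δ v G V hV hD hG hH hX hP hslf hB hΔ hT hDe hv hvh
  classical
  obtain ⟨mv, hmv⟩ := hvh
  have := hV
  have hS : Slf V G := ⟨fun c hc => (hslf c).2 hc, fun c hc => (hslf c).1 hc⟩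
  have hgen : ∀ u : Po (ν + 2) k, ∃ (s : Po (ν + 2) k) (c : Fin E → Po (ν + 2) k), s ∉ V ∧
      aeval G s * u - ∑ j : Fin E, θ ^ (j : ℕ) * aeval G (c j) ∈ V := by
    intro u
    obtain ⟨M, c, hc⟩ := hB.gen u
    refine ⟨Δ ^ M, c, fun h => hΔ (hV.mem_of_pow_mem M h), ?_⟩
    rw [map_pow]
    exact V.mem_of_dvd hc hP
  obtain ⟨c₀, hc₀, hcov⟩ := Pool.Agent.H33.HX.pf_CVD (ν + 2) E k V G θ hS hB.pos hgen hT.ind
  have hvX : v * X 1 ∉ V := by
    intro h
    rcases hV.mem_or_mem h with h | h
    · exact hv h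
    · exact hX h
  obtain ⟨c', A, hc', hA⟩ := Pool.Agent.H63.HX.pf_ELI (ν + 2) k V G hS (v * X 1) hvX
  set u₀ : Po (ν + 2) k := c₀ * c' * X 1 with hu₀
  have hu₀V : u₀ ∉ V := by
    intro h
    rcases hV.mem_or_mem h with h | h
    · rcases hV.mem_or_mem h with h | h
      · exact hc₀ h
      · exact hc' h
    · exact hX h
  -- a homogeneous component outside `V`
  obtain ⟨m, hm⟩ : ∃ m, homogeneousComponent m u₀ ∉ V := by
    by_contra hno
    push Not at hno
    refine hu₀V ?_
    rw [← sum_homogeneousComponent u₀]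
    exact V.sum_mem fun i _ => hno i
  -- the statement for the points with `u₀ ≠ 0`
  have hmain : ∀ y : Fin (ν + 2) → k, Zer V y → eval y u₀ ≠ 0 →
      ∃ S : Finset (Fin (ν + 2) → k), S.card = e ∧ ∀ x ∈ S, Zer V x ∧ x 1 = 1 ∧ eval x v ≠ 0 ∧
        pmap G x 1 ≠ 0 ∧ af (pmap G x) = af y := by
    intro y hy hyu
    rw [hu₀, map_mul, map_mul, eval_X] at hyu
    have hy1 : y 1 ≠ 0 := right_ne_zero_of_mul hyu
    have hyc' : eval y c' ≠ 0 := right_ne_zero_of_mul (left_ne_zero_of_mul hyu)
    have hyc₀ : eval y c₀ ≠ 0 := left_ne_zero_of_mul (left_ne_zero_of_mul hyu)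
    obtain ⟨S₀, hS₀, hS₀x⟩ := hcov y hy hyc₀
    have hx : ∀ x ∈ S₀, eval x v ≠ 0 ∧ x 1 ≠ 0 := by
      intro x hx
      have h1 := (hS₀x x hx).1 _ hA
      rw [map_sub, sub_eq_zero] at h1
      have h2 : eval x (aeval G c') = eval y c' := by
        rw [← (hS₀x x hx).2]
        show eval x (bind₁ G c') = eval (fun i => eval x (G i)) c'
        rw [← coe_aeval_eq_eval, ← coe_aeval_eq_eval, RingHom.coe_coe, RingHom.coe_coe,
          aeval_bind₁]
      rw [h2, map_mul, map_mul, eval_X] at h1
      rw [h1] at hyc'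
      exact ⟨left_ne_zero_of_mul (left_ne_zero_of_mul hyc'),
        right_ne_zero_of_mul (left_ne_zero_of_mul hyc')⟩
    set U : Finset k := (Polynomial.nthRoots D (1 : k)).toFinset with hU
    have hUc : U.card ≤ D :=
      (Multiset.toFinset_card_le _).trans (Polynomial.card_nthRoots D 1)
    have hUm : ∀ t : k, t ^ D = 1 → t ∈ U := by
      intro t ht
      rw [hU, Multiset.mem_toFinset, Polynomial.mem_nthRoots (by omega)]
      exact ht
    -- the classes of proportional points
    have hcard : S₀.card ≤ D * (S₀.image af).card := by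
      refine (Finset.card_le_mul_card_image S₀ D fun b hb => ?_)
      rw [Finset.mem_image] at hb
      obtain ⟨x, hxS, rfl⟩ := hb
      refine le_trans (Finset.card_le_card (t := U.image fun t => fun i => t * x i) ?_)
        (Finset.card_image_le.trans hUc)
      intro x' hx'
      rw [Finset.mem_filter] at hx'
      obtain ⟨hx'S, hx'a⟩ := hx'
      have hx1 : x 1 ≠ 0 := (hx x hxS).2
      have hx'1 : x' 1 ≠ 0 := (hx x' hx'S).2
      have heq : x' = fun i => (x' 1 / x 1) * x i := by
        funext i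
        have h1 := congrFun hx'a i
        have h2 : x' i / x' 1 = x i / x 1 := h1
        field_simp at h2 ⊢
        exact h2
      rw [Finset.mem_image]
      refine ⟨x' 1 / x 1, hUm _ ?_, heq.symm⟩
      have h3 : pmap G x' 1 = (x' 1 / x 1) ^ D * pmap G x 1 := by
        conv_lhs => rw [heq]
        rw [pmap_smul hG]
      rw [(hS₀x x hxS).2, (hS₀x x' hx'S).2] at h3
      have h4 : ((x' 1 / x 1) ^ D - 1) * y 1 = 0 := by
        rw [sub_mul, ← h3, one_mul, sub_self]
      exact sub_eq_zero.1 ((mul_eq_zero.1 h4).resolve_right hy1)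
    have hcard' : e ≤ (S₀.image af).card := by
      rw [hS₀] at hcard
      exact Nat.le_of_mul_le_mul_left (hDe.trans hcard) (by omega)
    obtain ⟨S, hSs, hSc⟩ := Finset.exists_subset_card_eq hcard'
    refine ⟨S, hSc, fun z hz => ?_⟩
    obtain ⟨x, hxS, rfl⟩ := Finset.mem_image.1 (hSs hz)
    have hx1 : x 1 ≠ 0 := (hx x hxS).2
    have hi : (x 1)⁻¹ ≠ 0 := inv_ne_zero hx1
    have hpm : pmap G (af x) = fun i => ((x 1)⁻¹) ^ D * y i := by
      rw [af_eq_smul, pmap_smul hG, (hS₀x x hxS).2]
    refine ⟨?_, div_self hx1, ?_, ?_, ?_⟩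
    · rw [af_eq_smul]
      exact zer_smul hH (hS₀x x hxS).1 _
    · rw [af_eq_smul, Pool.Agent.H52.HX.hom_eval hmv]
      exact mul_ne_zero (pow_ne_zero _ hi) (hx x hxS).1
    · rw [hpm]
      exact mul_ne_zero (pow_ne_zero _ hi) hy1
    · rw [hpm]
      exact af_smul (pow_ne_zero _ hi) y
  refine ⟨homogeneousComponent m u₀, hm, ⟨m, homogeneousComponent_isHomogeneous m u₀⟩, ?_⟩
  intro y hy hym
  -- a multiple of `y` with `u₀ ≠ 0`
  obtain ⟨t, ht0, htu⟩ : ∃ t : k, t ≠ 0 ∧ eval (fun i => t * y i) u₀ ≠ 0 := by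
    set p : Polynomial k := ∑ j ∈ Finset.range (u₀.totalDegree + 1),
      Polynomial.C (eval y (homogeneousComponent j u₀)) * Polynomial.X ^ j with hp
    have hmr : m < u₀.totalDegree + 1 := by
      by_contra hlt
      refine hm ?_
      rw [homogeneousComponent_eq_zero m u₀ (by omega)]
      exact V.zero_mem
    have hpm : p.coeff m = eval y (homogeneousComponent m u₀) := by
      rw [hp, Polynomial.finsetSum_coeff, Finset.sum_eq_single m]
      · rw [Polynomial.coeff_C_mul, Polynomial.coeff_X_pow_self, mul_one]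
      · intro j _ hj
        rw [Polynomial.coeff_C_mul, Polynomial.coeff_X_pow, if_neg (Ne.symm hj), mul_zero]
      · intro h
        exact absurd (Finset.mem_range.2 hmr) h
    have hp0 : Polynomial.X * p ≠ 0 := by
      refine mul_ne_zero Polynomial.X_ne_zero fun h => hym ?_
      rw [← hpm, h, Polynomial.coeff_zero]
    have hinf : Infinite k := IsAlgClosed.instInfinite
    obtain ⟨t, ht⟩ : ∃ t : k, (Polynomial.X * p).eval t ≠ 0 := by
      by_contra hno
      push Not at hno
      exact hp0 (Polynomial.funext fun t => by rw [hno t, Polynomial.eval_zero])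
    rw [Polynomial.eval_mul, Polynomial.eval_X] at ht
    refine ⟨t, left_ne_zero_of_mul ht, ?_⟩
    rw [eval_smul_sum]
    have h1 := right_ne_zero_of_mul ht
    rw [hp, Polynomial.eval_finsetSum] at h1
    refine fun h => h1 (Eq.trans (Finset.sum_congr rfl fun j _ => ?_) h)
    rw [Polynomial.eval_mul, Polynomial.eval_C, Polynomial.eval_pow, Polynomial.eval_X, mul_comm]
  obtain ⟨S, hSc, hSx⟩ := hmain _ (zer_smul hH hy t) htu
  refine ⟨S, hSc, fun x hx => ?_⟩
  obtain ⟨h1, h2, h3, h4, h5⟩ := hSx x hx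
  exact ⟨h1, h2, h3, h4, h5.trans (af_smul ht0 y)⟩

end Pool.Agent.H52.EDB
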