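import Pool.Agent.H52.EDB.FBV

/-!
# (TRE) the tree of the preimages in a totally invariant closed subset
-/

set_option autoImplicit false

open MvPolynomial
open Pool.Agent.H12.ZD (pmap)
open Pool.Agent.H18.HIT Pool.Agent.H18.HX Pool.Agent.H18.VZ
open Pool.Agent.H2.ED
open Pool.Agent.H18.EDB

namespace Pool.Agent.H52.EDB

section tree

variable {ν : ℕ} {k : Type} [Field k]

theorem af_one {x : Fin (ν + 2) → k} (hx : x 1 = 1) : af x = x := by
  funext i
  show x i / x 1 = x i
  rw [hx, div_one]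

/-- the `j`-th iterated image of a point of the `j`-th level is the root -/
theorem tree_root {V : Ideal (Po (ν + 2) k)} {G : Tup (ν + 2) k} {v : Po (ν + 2) k} {e l : ℕ}
    {y : Fin (ν + 2) → k} {T : ℕ → Finset (Fin (ν + 2) → k)} (hT : Tree V G v e l y T) (j : ℕ) :
    j ≤ l → ∀ z ∈ T j, (fun x => af (pmap G x))^[j] z = af y := by
  induction j with
  | zero =>
    intro _ z hz
    rw [hT.zero, Finset.mem_singleton] at hz
    exact hz
  | succ j ih =>
    intro hj z hz
    rw [Function.iterate_succ_apply]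
    exact ih (by omega) _ (hT.step j (by omega) z hz).2.2

end tree

theorem tree_succ {ν e l : ℕ} {k : Type} [Field k] {v u' : Po (ν + 2) k} {G : Tup (ν + 2) k}
    {V : Ideal (Po (ν + 2) k)} (hH : Hmi V)
    (hIH : ∀ y : Fin (ν + 2) → k, Zer V y → y 1 ≠ 0 → eval y u' ≠ 0 →
      ∃ T : ℕ → Finset (Fin (ν + 2) → k), Tree V G v e l y T)
    {y : Fin (ν + 2) → k} (hy : Zer V y) (hy1 : y 1 ≠ 0) {S : Finset (Fin (ν + 2) → k)}
    (hSc : S.card = e) (hS : ∀ x ∈ S, Zer V x ∧ x 1 = 1 ∧ eval x (v * u') ≠ 0 ∧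
      pmap G x 1 ≠ 0 ∧ af (pmap G x) = af y) :
    ∃ T : ℕ → Finset (Fin (ν + 2) → k), Tree V G v e (l + 1) y T := by
  classical
  have hex : ∀ x : Fin (ν + 2) → k, ∃ T : ℕ → Finset (Fin (ν + 2) → k),
      x ∈ S → Tree V G v e l x T := by
    intro x
    by_cases hx : x ∈ S
    · obtain ⟨h1, h2, h3, -, -⟩ := hS x hx
      rw [map_mul] at h3
      obtain ⟨T, hT⟩ := hIH x h1 (by rw [h2]; exact one_ne_zero) (right_ne_zero_of_mul h3)
      exact ⟨T, fun _ => hT⟩
    · exact ⟨fun _ => ∅, fun h => absurd h hx⟩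
  choose T hT using hex
  have hself : ∀ x ∈ S, T x 0 = {x} := by
    intro x hx
    rw [(hT x hx).zero, af_one (hS x hx).2.1]
  have hroot : ∀ x ∈ S, ∀ j ≤ l, ∀ z ∈ T x j, (fun x => af (pmap G x))^[j] z = x := by
    intro x hx j hj z hz
    rw [tree_root (hT x hx) j hj z hz, af_one (hS x hx).2.1]
  let W : ℕ → Finset (Fin (ν + 2) → k) := fun i => match i with
    | 0 => {af y}
    | j + 1 => S.biUnion fun x => T x j
  have hW : ∀ j z, z ∈ W (j + 1) ↔ ∃ x ∈ S, z ∈ T x j := fun j z => Finset.mem_biUnion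
  have hW1 : ∀ z, z ∈ W 1 ↔ z ∈ S := by
    intro z
    rw [hW]
    constructor
    · rintro ⟨x, hx, hz⟩
      rw [hself x hx, Finset.mem_singleton] at hz
      rw [hz]
      exact hx
    · intro hz
      exact ⟨z, hz, by rw [hself z hz]; exact Finset.mem_singleton_self z⟩
  refine ⟨W, rfl, ?_, ?_, ?_⟩
  · intro i x hx
    cases i with
    | zero =>
      have h1 : x = af y := Finset.mem_singleton.1 hx
      rw [h1]
      refine ⟨?_, div_self hy1⟩
      rw [af_eq_smul]
      exact zer_smul hH hy _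
    | succ j =>
      obtain ⟨x', hx', h⟩ := (hW j x).1 hx
      exact (hT x' hx').mem j x h
  · intro i hi x hx
    cases i with
    | zero =>
      have hxS := (hW1 x).1 hx
      obtain ⟨-, -, h3, h4, h5⟩ := hS x hxS
      rw [map_mul] at h3
      refine ⟨left_ne_zero_of_mul h3, h4, ?_⟩
      rw [h5]
      exact Finset.mem_singleton_self _
    | succ j =>
      obtain ⟨x', hx', h⟩ := (hW (j + 1) x).1 hx
      obtain ⟨h1, h2, h3⟩ := (hT x' hx').step j (by omega) x h
      exact ⟨h1, h2, (hW j _).2 ⟨x', hx', h3⟩⟩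
  · intro i hi z hz
    cases i with
    | zero =>
      have h1 : z = af y := Finset.mem_singleton.1 hz
      rw [← hSc]
      congr 1
      ext w
      rw [Finset.mem_filter, hW1]
      constructor
      · exact fun h => h.1
      · intro h
        exact ⟨h, by rw [h1]; exact (hS w h).2.2.2.2⟩
    | succ j =>
      obtain ⟨x, hx, hzx⟩ := (hW j z).1 hz
      rw [← (hT x hx).cnt j (by omega) z hzx]
      congr 1
      ext w
      rw [Finset.mem_filter, Finset.mem_filter, hW]
      constructor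
      · rintro ⟨⟨x', hx', hw⟩, hwz⟩
        have h1 := ((hT x' hx').step j (by omega) w hw).2.2
        rw [hwz] at h1
        have h2 : x' = x := by
          rw [← hroot x' hx' j (by omega) z h1, ← hroot x hx j (by omega) z hzx]
        subst h2
        exact ⟨hw, hwz⟩
      · rintro ⟨hw, hwz⟩
        exact ⟨⟨x, hx, hw⟩, hwz⟩

theorem pf_TRE (hFBV : T_FBV) : T_TRE := by
  intro ν D E e k _ _ _ P θ Δ v G V hV hD hG hH hX hP hslf hB hΔ hT hDe hv hvh l
  classical
  induction l with
  | zero =>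
    refine ⟨1, fun h => hV.ne_top ((Ideal.eq_top_iff_one V).2 h), ⟨0, isHomogeneous_one _ _⟩, ?_⟩
    intro y hy hy1 _
    refine ⟨fun i => if i = 0 then {af y} else ∅, ?_, ?_, ?_, ?_⟩
    · exact if_pos rfl
    · intro i x hx
      split_ifs at hx with hi
      · rw [Finset.mem_singleton] at hx
        rw [hx]
        refine ⟨?_, div_self hy1⟩
        rw [af_eq_smul]
        exact zer_smul hH hy _
      · exact absurd hx (Finset.notMem_empty x)
    · intro i hi
      exact absurd hi (Nat.not_lt_zero i)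
    · intro i hi
      exact absurd hi (Nat.not_lt_zero i)
  | succ l ih =>
    obtain ⟨u', hu', ⟨m', hm'⟩, hIH⟩ := ih
    obtain ⟨m, hm⟩ := hvh
    have hvu : v * u' ∉ V := by
      intro h
      rcases hV.mem_or_mem h with h | h
      · exact hv h
      · exact hu' h
    obtain ⟨u, hu, huh, hfib⟩ := hFBV ν D E e k P θ Δ (v * u') G V hV hD hG hH hX hP hslf hB hΔ hT
      hDe hvu ⟨m + m', hm.mul hm'⟩
    refine ⟨u, hu, huh, ?_⟩
    intro y hy hy1 hyu
    obtain ⟨S, hSc, hS⟩ := hfib y hy hyu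
    exact tree_succ hH hIH hy hy1 hSc hS

end Pool.Agent.H52.EDB
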